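import Pool.Agent.Helper99.SI.StB

set_option autoImplicit false

/-!
# Project SI: module B5 (the components vanish for small t)
-/

namespace Pool.Agent.Helper42.SI

open Pool.Agent.Helper99.SI

section norm

variable {L : Type} [Ring L] [Algebra ℂ L] (A : ANorm L)

lemma b5_N0 : A.N 0 = 0 := by
  apply le_antisymm _ (A.nn 0)
  have h := A.smul 0 (0 : L)
  rw [zero_smul, norm_zero, zero_mul] at h
  exact h

lemma b5_Nsum {ι : Type} (s : Finset ι) (f : ι → L) : A.N (∑ i ∈ s, f i) ≤ ∑ i ∈ s, A.N (f i) := by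
  classical
  induction s using Finset.induction_on with
  | empty => rw [Finset.sum_empty, Finset.sum_empty, b5_N0]
  | insert a s ha ih =>
    rw [Finset.sum_insert ha, Finset.sum_insert ha]
    exact (A.add _ _).trans (add_le_add le_rfl ih)

end norm

lemma b5_exp (E : ℝ) (hE : 1 ≤ E) (j a l : ℤ) :
    E ^ (j - a - l).natAbs ≤ E ^ (a.natAbs + l.natAbs) * E ^ j.natAbs := by
  rw [← pow_add]
  exact pow_le_pow_right₀ hE (by omega)

/-- One step of the contraction. -/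
lemma b5_step {n : ℕ} {L : Type} [Ring L] [Algebra ℂ L] [StarRing L] (D : Sys n L)
    (A : ANorm L) (E : ℝ) (hE : 1 ≤ E) (k : ℕ)
    (hk : ∀ μ : W n, μ.length = k → ∀ i < (1 : ℤ), D.b.p i (D.w μ) = 0) :
    ∃ C : ℝ, 0 ≤ C ∧ ∀ (t s : ℝ) (Y : ℤ → L) (Q : ℝ), 0 < t → t ≤ 1 → 0 ≤ s → s ≤ 1 → 0 ≤ Q →
      (∀ j, A.N (Y j) ≤ Q * E ^ j.natAbs) →
      (∀ j, Y j = (s : ℂ) ^ k • ∑ κ : Fin k → Fin n, ∑ᶠ a : ℤ, ∑ᶠ l : ℤ,
        (t : ℂ) ^ l • (D.b.p a (star (D.w (List.ofFn κ))) * Y (j - a - l) *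
          D.b.p l (D.w (List.ofFn κ)))) →
      ∀ j, A.N (Y j) ≤ (t * C * Q) * E ^ j.natAbs := by
  set Sa : (Fin k → Fin n) → Finset ℤ := fun κ =>
    (D.b.fin (star (D.w (List.ofFn κ)))).toFinset with hSa
  set Sl : (Fin k → Fin n) → Finset ℤ := fun κ => (D.b.fin (D.w (List.ofFn κ))).toFinset with hSl
  refine ⟨∑ κ : Fin k → Fin n, ∑ a ∈ Sa κ, ∑ l ∈ Sl κ,
    A.N (D.b.p a (star (D.w (List.ofFn κ)))) * A.N (D.b.p l (D.w (List.ofFn κ))) *
      E ^ (a.natAbs + l.natAbs), ?_, ?_⟩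
  · refine Finset.sum_nonneg fun κ _ => Finset.sum_nonneg fun a _ => Finset.sum_nonneg fun l _ => ?_
    exact mul_nonneg (mul_nonneg (A.nn _) (A.nn _)) (by positivity)
  · intro t s Y Q ht ht1 hs hs1 hQ hY hE4 j
    have e1 : ∀ κ : Fin k → Fin n, (∑ᶠ a : ℤ, ∑ᶠ l : ℤ,
        (t : ℂ) ^ l • (D.b.p a (star (D.w (List.ofFn κ))) * Y (j - a - l) *
          D.b.p l (D.w (List.ofFn κ)))) = ∑ a ∈ Sa κ, ∑ l ∈ Sl κ,
        (t : ℂ) ^ l • (D.b.p a (star (D.w (List.ofFn κ))) * Y (j - a - l) *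
          D.b.p l (D.w (List.ofFn κ))) := by
      intro κ
      rw [finsum_eq_sum_of_support_subset (s := Sa κ)]
      · refine Finset.sum_congr rfl fun a _ => ?_
        rw [finsum_eq_sum_of_support_subset (s := Sl κ)]
        intro l hl
        rw [hSl, Finset.mem_coe, Set.Finite.mem_toFinset]
        intro h0
        apply hl
        change (t : ℂ) ^ l • (D.b.p a (star (D.w (List.ofFn κ))) * Y (j - a - l) *
          D.b.p l (D.w (List.ofFn κ))) = 0
        rw [h0, mul_zero, smul_zero]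
      · intro a ha
        rw [hSa, Finset.mem_coe, Set.Finite.mem_toFinset]
        intro h0
        apply ha
        change (∑ᶠ l : ℤ, (t : ℂ) ^ l • (D.b.p a (star (D.w (List.ofFn κ))) * Y (j - a - l) *
          D.b.p l (D.w (List.ofFn κ)))) = 0
        rw [h0]
        simp only [zero_mul, smul_zero, finsum_zero]
    have e2 : ∀ κ : Fin k → Fin n, ∀ a ∈ Sa κ, ∀ l ∈ Sl κ,
        A.N ((t : ℂ) ^ l • (D.b.p a (star (D.w (List.ofFn κ))) * Y (j - a - l) *
          D.b.p l (D.w (List.ofFn κ)))) ≤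
        A.N (D.b.p a (star (D.w (List.ofFn κ)))) * A.N (D.b.p l (D.w (List.ofFn κ))) *
          E ^ (a.natAbs + l.natAbs) * (t * Q * E ^ j.natAbs) := by
      intro κ a _ l hl
      have hl1 : 1 ≤ l := by
        rw [hSl, Set.Finite.mem_toFinset] at hl
        by_contra hc
        exact hl (hk _ (List.length_ofFn) l (by omega))
      have h1 : ‖(t : ℂ) ^ l‖ ≤ t := by
        rw [norm_zpow, Complex.norm_real, Real.norm_eq_abs, abs_of_pos ht]
        calc t ^ l ≤ t ^ (1 : ℤ) := zpow_le_zpow_right_of_le_one₀ ht ht1 hl1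
          _ = t := zpow_one t
      have h2 : A.N (D.b.p a (star (D.w (List.ofFn κ))) * Y (j - a - l) *
          D.b.p l (D.w (List.ofFn κ))) ≤
          A.N (D.b.p a (star (D.w (List.ofFn κ)))) *
            (Q * (E ^ (a.natAbs + l.natAbs) * E ^ j.natAbs)) *
            A.N (D.b.p l (D.w (List.ofFn κ))) := by
        refine (A.mul _ _).trans (mul_le_mul_of_nonneg_right ?_ (A.nn _))
        refine (A.mul _ _).trans (mul_le_mul_of_nonneg_left ?_ (A.nn _))
        exact (hY _).trans (mul_le_mul_of_nonneg_left (b5_exp E hE j a l) hQ)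
      have h3 := A.smul ((t : ℂ) ^ l) (D.b.p a (star (D.w (List.ofFn κ))) * Y (j - a - l) *
          D.b.p l (D.w (List.ofFn κ)))
      have h4 : ‖(t : ℂ) ^ l‖ * A.N (D.b.p a (star (D.w (List.ofFn κ))) * Y (j - a - l) *
          D.b.p l (D.w (List.ofFn κ))) ≤ t * (A.N (D.b.p a (star (D.w (List.ofFn κ)))) *
            (Q * (E ^ (a.natAbs + l.natAbs) * E ^ j.natAbs)) *
            A.N (D.b.p l (D.w (List.ofFn κ)))) :=
        mul_le_mul h1 h2 (A.nn _) ht.le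
      refine h3.trans (h4.trans (le_of_eq ?_))
      ring
    have e3 : A.N (Y j) ≤ ‖(s : ℂ) ^ k‖ * A.N (∑ κ : Fin k → Fin n, ∑ᶠ a : ℤ, ∑ᶠ l : ℤ,
        (t : ℂ) ^ l • (D.b.p a (star (D.w (List.ofFn κ))) * Y (j - a - l) *
          D.b.p l (D.w (List.ofFn κ)))) := by
      conv_lhs => rw [hE4 j]
      exact A.smul _ _
    have e4 : ‖(s : ℂ) ^ k‖ ≤ 1 := by
      rw [norm_pow, Complex.norm_real, Real.norm_eq_abs, abs_of_nonneg hs]
      exact pow_le_one₀ hs hs1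
    have e5 : A.N (∑ κ : Fin k → Fin n, ∑ᶠ a : ℤ, ∑ᶠ l : ℤ,
        (t : ℂ) ^ l • (D.b.p a (star (D.w (List.ofFn κ))) * Y (j - a - l) *
          D.b.p l (D.w (List.ofFn κ)))) ≤ ∑ κ : Fin k → Fin n, ∑ a ∈ Sa κ, ∑ l ∈ Sl κ,
        A.N (D.b.p a (star (D.w (List.ofFn κ)))) * A.N (D.b.p l (D.w (List.ofFn κ))) *
          E ^ (a.natAbs + l.natAbs) * (t * Q * E ^ j.natAbs) := by
      refine (b5_Nsum A _ _).trans (Finset.sum_le_sum fun κ _ => ?_)
      rw [e1 κ]
      refine (b5_Nsum A _ _).trans (Finset.sum_le_sum fun a ha => ?_)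
      exact (b5_Nsum A _ _).trans (Finset.sum_le_sum fun l hl => e2 κ a ha l hl)
    refine e3.trans ?_
    calc _ ≤ 1 * A.N (∑ κ : Fin k → Fin n, ∑ᶠ a : ℤ, ∑ᶠ l : ℤ,
        (t : ℂ) ^ l • (D.b.p a (star (D.w (List.ofFn κ))) * Y (j - a - l) *
          D.b.p l (D.w (List.ofFn κ)))) := mul_le_mul_of_nonneg_right e4 (A.nn _)
      _ ≤ _ := by
        rw [one_mul]
        refine e5.trans (le_of_eq ?_)
        simp only [← Finset.sum_mul]
        ring

/-- Scaling of Yj. -/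
lemma b5_scale {n : ℕ} {L : Type} [Ring L] [Algebra ℂ L] [StarRing L] (D : Sys n L)
    (m : MData n L) (t : ℝ) (z : Idx n m.r → ℂ) (c : ℂ) (j : ℤ) :
    m.Yj D t (fun i => c * z i) j = c • m.Yj D t z j := by
  rw [MData.Yj, MData.Yj, smul_finsum]
  refine finsum_congr fun i => ?_
  rw [mul_smul]

theorem hB5 (h1 : StA7) (h2 : StB1) (h3 : StB3) (h4 : StB4) : StB5 := by
  intro n L _ _ _ _ _ D X0 m hm
  obtain ⟨n1, C, hn1, hA7, -⟩ := h1 n L D
  obtain ⟨A⟩ := h2 n L D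
  obtain ⟨-, E, hE, hB3⟩ := h3 n L D X0 m A hm
  obtain ⟨C', hC', hstep⟩ := b5_step D A E hE n1 (fun μ hμ i hi => hA7 μ hμ.ge i hi)
  refine ⟨min 1 (1 / (2 * (C' + 1))), lt_min one_pos (by positivity), ?_⟩
  intro t ht htt s hs hs1 z ⟨c, hc⟩ hker j
  have ht1 : t ≤ 1 := htt.trans (min_le_left _ _)
  have ht2 : t * C' ≤ 1 / 2 := by
    have h5 : t ≤ 1 / (2 * (C' + 1)) := htt.trans (min_le_right _ _)
    have h6 : 0 < 2 * (C' + 1) := by positivity
    rw [le_div_iff₀ h6] at h5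
    nlinarith
  obtain ⟨Bt, hBt⟩ := hB3 t ht ht1
  -- scaling
  set c' : ℝ := max 1 c with hc'
  have hc1 : 1 ≤ c' := le_max_left _ _
  have hc0 : 0 < c' := lt_of_lt_of_le one_pos hc1
  have hz : ∀ i, ‖(c' : ℂ)⁻¹ * z i‖ ≤ 1 := by
    intro i
    rw [norm_mul, norm_inv, Complex.norm_real, Real.norm_eq_abs, abs_of_pos hc0,
      inv_mul_le_iff₀ hc0, mul_one]
    exact (hc i).trans (le_max_right _ _)
  have hY0 : ∀ j, A.N (m.Yj D t z j) ≤ (c' * Bt) * E ^ j.natAbs := by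
    intro j
    have h5 := hBt _ hz j
    have h6 : m.Yj D t z j = (c' : ℂ) • m.Yj D t (fun i => (c' : ℂ)⁻¹ * z i) j := by
      rw [← b5_scale]
      congr 1
      funext i
      rw [← mul_assoc, mul_inv_cancel₀ (by exact_mod_cast hc0.ne'), one_mul]
    rw [h6]
    refine (A.smul _ _).trans ?_
    rw [Complex.norm_real, Real.norm_eq_abs, abs_of_pos hc0, mul_assoc]
    exact mul_le_mul_of_nonneg_left h5 hc0.le
  have hQ0 : 0 ≤ c' * Bt := by
    have h5 := (A.nn _).trans (hY0 0)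
    simpa using h5
  have hit : ∀ N : ℕ, ∀ j, A.N (m.Yj D t z j) ≤ ((1 / 2) ^ N * (c' * Bt)) * E ^ j.natAbs := by
    intro N
    induction N with
    | zero => simpa using hY0
    | succ N ih =>
      intro j
      have hQN : 0 ≤ (1 / 2 : ℝ) ^ N * (c' * Bt) := by positivity
      have h5 := hstep t s (fun j => m.Yj D t z j) _ ht ht1 hs hs1 hQN ih
        (fun j => h4 n L D X0 m hm s t ht z hker n1 j) j
      refine h5.trans (mul_le_mul_of_nonneg_right ?_ (by positivity))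
      rw [pow_succ]
      calc t * C' * ((1 / 2) ^ N * (c' * Bt)) ≤ 1 / 2 * ((1 / 2) ^ N * (c' * Bt)) :=
            mul_le_mul_of_nonneg_right ht2 hQN
        _ = _ := by ring
  apply A.zero
  apply le_antisymm _ (A.nn _)
  have hlim : Filter.Tendsto (fun N : ℕ => ((1 / 2 : ℝ) ^ N * (c' * Bt)) * E ^ j.natAbs)
      Filter.atTop (nhds 0) := by
    have h5 := ((tendsto_pow_atTop_nhds_zero_of_lt_one (r := (1 / 2 : ℝ)) (by norm_num)
      (by norm_num)).mul_const (c' * Bt)).mul_const (E ^ j.natAbs)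
    simpa using h5
  exact ge_of_tendsto' hlim fun N => hit N j

end Pool.Agent.Helper42.SI
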