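import Pool.Agent.Helper99.SI.StCen

/-! Project SI (MP_181f94_al), module CEN: the center of a Leavitt path algebra. -/

set_option autoImplicit false

namespace Pool.Agent.Helper42.SI

open Pool.Agent.Helper92 Pool.Agent.Helper92.LV Pool.Agent.Helper99.SI

universe u v

section

variable {k : Type u} [Field k] {V E : Type} [Fintype V] [Fintype E] [DecidableEq V]
    [DecidableEq E] {G : LV.Graph V E} {L : Type v} [Ring L] [Algebra k L]

omit [Fintype V] [Fintype E] [DecidableEq V] [DecidableEq E] in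
lemma comp_inj {p q κ : Pa G} (hp : p.tgt = κ.src) (hq : q.tgt = κ.src)
    (h : p.comp κ hp = q.comp κ hq) : p = q := by
  have h1 := congrArg Subtype.val h
  simp only [Pa.comp, Prod.mk.injEq] at h1
  exact Pa.eq_of h1.1 (List.append_cancel_left h1.2)

/-- The coefficients of a product with a path. -/
lemma coef {f : Fam k G L} (hI : f.Indep) (c : Pa G →₀ k) (κ : Pa G) (S : Set (Pa G))
    (h : Finsupp.linearCombination k f.pe c * f.pe κ ∈ Submodule.span k (f.pe '' S))
    (q : Pa G) (hq : c q ≠ 0) (ht : q.tgt = κ.src) : q.comp κ ht ∈ S := by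
  classical
  have h1 : Finsupp.linearCombination k f.pe (c.sum fun p r =>
      if h : p.tgt = κ.src then Finsupp.single (p.comp κ h) r else 0) =
      Finsupp.linearCombination k f.pe c * f.pe κ := by
    rw [Finsupp.sum, map_sum, Finsupp.linearCombination_apply (l := c), Finsupp.sum,
      Finset.sum_mul]
    refine Finset.sum_congr rfl fun p _ => ?_
    split_ifs with hp
    · rw [Finsupp.linearCombination_single, smul_mul_assoc, f.pe_comp]
    · rw [map_zero, smul_mul_assoc, f.pe_mul_pe, dif_neg hp, smul_zero]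
  rw [← h1, Finsupp.mem_span_image_iff_linearCombination] at h
  obtain ⟨l, hl, hl'⟩ := h
  have h2 := hI hl'
  have h3 : l (q.comp κ ht) = c q := by
    rw [h2, Finsupp.sum_apply, Finsupp.sum, Finset.sum_eq_single q]
    · rw [dif_pos ht, Finsupp.single_eq_same]
    · intro b _ hb
      split_ifs with hb'
      · rw [Finsupp.single_eq_of_ne]
        intro e
        exact hb (comp_inj ht hb' e).symm
      · rfl
    · intro hqq
      exact absurd (Finsupp.notMem_support_iff.1 hqq) hq
  have h4 : q.comp κ ht ∈ l.support := by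
    rw [Finsupp.mem_support_iff, h3]
    exact hq
  exact hl h4

omit [Fintype V] [Fintype E] [DecidableEq V] [DecidableEq E] in
lemma reach_path {a b : V} (h : G.Reach a b) : ∃ p : Pa G, p.src = a ∧ p.tgt = b := by
  induction h with
  | refl => exact ⟨Pa.triv G a, rfl, rfl⟩
  | snoc e _ ih =>
    obtain ⟨p, h1, h2⟩ := ih
    exact ⟨p.ext e h2.symm, h1, rfl⟩

omit [Fintype V] [Fintype E] [DecidableEq V] [DecidableEq E] in
lemma path_to (hc : G.StronglyConnected) (hG : ∀ a : V, ∃ x : E, G.s x = a) (a : V) (n : ℕ) :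
    ∃ p : Pa G, n ≤ p.len ∧ p.tgt = a := by
  obtain ⟨p, _, h2⟩ := Pa.exists_path hG a n
  obtain ⟨q, h3, h4⟩ := reach_path (hc p.tgt a)
  refine ⟨p.comp q h3.symm, ?_, ?_⟩
  · rw [Pa.comp_len, h2]
    omega
  · rw [Pa.comp_tgt, h4]

lemma left_inv (f : Fam k G L) (p : Pa G) : ∃ g : L, g * f.pe p = f.v p.tgt := by
  obtain ⟨⟨a, l⟩, hp⟩ := p
  change ∃ g : L, g * f.pl a l = f.v (rng G a l)
  change ok G a l at hp
  induction l with
  | nil =>
    refine ⟨f.v a, ?_⟩
    have := f.vv a a
    rw [if_pos rfl] at this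
    exact this
  | cons x l ih =>
    obtain ⟨g, hg⟩ := ih hp.1
    refine ⟨f.g x * g, ?_⟩
    change f.g x * g * (f.pl a l * f.e x) = f.v (G.r x)
    have h1 : f.g x * g * (f.pl a l * f.e x) = f.g x * (g * f.pl a l) * f.e x := by
      simp only [mul_assoc]
    rw [h1, hg, ← hp.2, f.gs, f.ck1, if_pos rfl]

/-- The products `f.pe p * z` with `z` in the span of the paths. -/
lemma pe_mul_mem (f : Fam k G L) (p : Pa G) {z : L} (hz : z ∈ f.O) :
    f.pe p * z ∈ Submodule.span k (f.pe '' {q | Pa.Desc p q}) := by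
  rw [Fam.O] at hz
  induction hz using Submodule.span_induction with
  | mem b hb =>
    obtain ⟨q, rfl⟩ := hb
    rw [f.pe_mul_pe]
    split_ifs with h
    · exact Submodule.subset_span ⟨p.comp q h, ⟨rfl, q.lst, rfl⟩, rfl⟩
    · exact zero_mem _
  | zero => rw [mul_zero]; exact zero_mem _
  | add x y _ _ hx hy => rw [mul_add]; exact add_mem hx hy
  | smul c x _ hx => rw [mul_smul_comm]; exact Submodule.smul_mem _ _ hx

omit [Fintype V] [Fintype E] [DecidableEq V] [DecidableEq E] in
lemma rng_of_suffix {a : V} {m l : List E} (h : ok G a (m ++ l)) : ok G (rng G a l) m := by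
  induction m with
  | nil => trivial
  | cons x m ih =>
    refine ⟨ih h.1, ?_⟩
    have h2 : G.s x = rng G a (m ++ l) := h.2
    rw [h2]
    exact rng_append rfl

lemma desc_factor (f : Fam k G L) {p q : Pa G} (h : Pa.Desc p q) :
    ∃ q' : Pa G, f.pe q = f.pe p * f.pe q' := by
  obtain ⟨h1, l, hl⟩ := h
  obtain ⟨⟨a, m⟩, hp⟩ := p
  obtain ⟨⟨b, n⟩, hq⟩ := q
  change b = a at h1
  change n = l ++ m at hl
  subst h1
  subst hl
  change ok G b (l ++ m) at hq
  refine ⟨⟨(rng G b m, l), rng_of_suffix hq⟩, ?_⟩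
  change f.pl b (l ++ m) = f.pl b m * f.pl (rng G b m) l
  rw [f.pl_mul_pl, if_pos rfl]

omit [Fintype V] [Fintype E] [DecidableEq V] [DecidableEq E] in
/-- Long extensions of a path with prescribed first edge. -/
lemma long_first (hG : ∀ a : V, ∃ x : E, G.s x = a) (x : E) (n : ℕ) :
    ∃ κ : Pa G, n ≤ κ.len ∧ κ.src = G.s x ∧ ∃ l, κ.lst = l ++ [x] := by
  obtain ⟨q, h1, h2⟩ := Pa.exists_path hG (G.r x) n
  refine ⟨(Fam.edg G x).comp q h1.symm, ?_, rfl, q.lst, rfl⟩
  rw [Pa.comp_len, h2]
  omega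

theorem central_mem_O (f : Fam k G L) (hf : f.Gens) (hI : f.Indep) (hc : G.StronglyConnected)
    (hG : G.TwoOut) (y : L) (hy : ∀ z, y * z = z * y) : y ∈ f.O := by
  classical
  have hout : ∀ a : V, ∃ x : E, G.s x = a := fun a => by
    obtain ⟨e, _, _, h, _⟩ := hG a
    exact ⟨e, h⟩
  obtain ⟨j, hj⟩ := f.long_mul hf y 0
  have hj' : ∀ p : Pa G, j ≤ p.len → y * f.pe p ∈ f.O := fun p hp => f.OGe_le 0 (hj p hp)
  have key : ∀ a : V, y * f.v a ∈ f.O := by
    intro a
    obtain ⟨p, hp, hpa⟩ := path_to hc hout a j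
    have hs := hj' p hp
    rw [Fam.O, Finsupp.mem_span_range_iff_exists_finsupp] at hs
    obtain ⟨c, hcs⟩ := hs
    have hcs' : Finsupp.linearCombination k f.pe c = y * f.pe p := by
      rw [Finsupp.linearCombination_apply]
      exact hcs
    -- all paths in the support extend p
    have h1 : ∀ (q κ : Pa G), c q ≠ 0 → ∀ (ht : q.tgt = κ.src), j ≤ κ.len →
        Pa.Desc p (q.comp κ ht) := by
      intro q κ hq ht hκ
      refine coef hI c κ {q | Pa.Desc p q} ?_ q hq ht
      rw [hcs', hy (f.pe p), mul_assoc]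
      exact pe_mul_mem f p (hj' κ hκ)
    have h2 : ∀ q : Pa G, c q ≠ 0 → Pa.Desc p q := by
      intro q hq
      obtain ⟨x, x', hxx, hx, hx'⟩ := hG q.tgt
      obtain ⟨κ, hκ1, hκ2, l, hl⟩ := long_first hout x j
      obtain ⟨κ', hκ1', hκ2', l', hl'⟩ := long_first hout x' j
      obtain ⟨d1, m, hm⟩ := h1 q κ hq (by rw [hκ2, hx]) hκ1
      obtain ⟨d1', m', hm'⟩ := h1 q κ' hq (by rw [hκ2', hx']) hκ1'
      change κ.lst ++ q.lst = m ++ p.lst at hm
      change κ'.lst ++ q.lst = m' ++ p.lst at hm'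
      rw [hl, List.append_assoc] at hm
      rw [hl', List.append_assoc] at hm'
      refine ⟨d1, ?_⟩
      by_contra hcon
      have h3 : p.lst <:+ l ++ ([x] ++ q.lst) := ⟨m, hm.symm⟩
      have h3' : p.lst <:+ l' ++ ([x'] ++ q.lst) := ⟨m', hm'.symm⟩
      have h4 : [x] ++ q.lst <:+ l ++ ([x] ++ q.lst) := ⟨l, rfl⟩
      have h4' : [x'] ++ q.lst <:+ l' ++ ([x'] ++ q.lst) := ⟨l', rfl⟩
      have h5 : q.lst.length < p.lst.length := by
        by_contra h6
        push Not at h6
        have h7 : q.lst <:+ l ++ ([x] ++ q.lst) := ⟨l ++ [x], by simp⟩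
        obtain ⟨t, ht⟩ := List.suffix_of_suffix_length_le h3 h7 h6
        exact hcon ⟨t, ht.symm⟩
      have h6 : [x] ++ q.lst <:+ p.lst :=
        List.suffix_of_suffix_length_le h4 h3 (by simpa using h5)
      have h6' : [x'] ++ q.lst <:+ p.lst :=
        List.suffix_of_suffix_length_le h4' h3' (by simpa using h5)
      have h7 : [x] ++ q.lst <:+ [x'] ++ q.lst :=
        List.suffix_of_suffix_length_le h6 h6' (by simp)
      have h8 : [x] ++ q.lst = [x'] ++ q.lst := h7.eq_of_length (by simp)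
      simp only [List.cons_append, List.nil_append, List.cons.injEq, and_true] at h8
      exact hxx h8
    have h3 : ∃ s' ∈ f.O, y * f.pe p = f.pe p * s' := by
      have h4 : Finsupp.linearCombination k f.pe c ∈
          Submodule.map (LinearMap.mulLeft k (f.pe p)) f.O := by
        rw [Finsupp.linearCombination_apply, Finsupp.sum]
        refine Submodule.sum_mem _ fun q hq => Submodule.smul_mem _ _ ?_
        obtain ⟨q', hq'⟩ := desc_factor f (h2 q (Finsupp.mem_support_iff.1 hq))
        exact ⟨f.pe q', f.pe_mem_O q', hq'.symm⟩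
      obtain ⟨s', hs', hs2⟩ := h4
      exact ⟨s', hs', by rw [← hcs', ← hs2]; rfl⟩
    obtain ⟨s', hs', hs2⟩ := h3
    obtain ⟨g, hg⟩ := left_inv f p
    rw [hpa] at hg
    have h5 : y * f.v a = f.v a * s' := by
      calc y * f.v a = y * (g * f.pe p) := by rw [hg]
        _ = g * (y * f.pe p) := by rw [← mul_assoc, hy g, mul_assoc]
        _ = g * f.pe p * s' := by rw [hs2, mul_assoc]
        _ = f.v a * s' := by rw [hg]
    rw [h5]
    exact f.O_mul_mem (f.v_mem_O a) hs'
  have h1 : y = ∑ a, y * f.v a := by rw [← Finset.mul_sum, f.one, mul_one]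
  rw [h1]
  exact Submodule.sum_mem _ fun a _ => key a

theorem central_scalar (f : Fam k G L) (hf : f.Gens) (hI : f.Indep) (hc : G.StronglyConnected)
    (hG : G.TwoOut) (y : L) (hy : ∀ z, y * z = z * y) : ∃ c : k, y = algebraMap k L c := by
  classical
  have hO := central_mem_O f hf hI hc hG y hy
  have hO' := hO
  rw [Fam.O, Finsupp.mem_span_range_iff_exists_finsupp] at hO'
  obtain ⟨c, hcs⟩ := hO'
  have hcs' : Finsupp.linearCombination k f.pe c = y := by
    rw [Finsupp.linearCombination_apply]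
    exact hcs
  -- the support consists of vertices
  have h1 : ∀ q : Pa G, c q ≠ 0 → q.len = 0 := by
    intro q hq
    by_contra hlen
    obtain ⟨x, x', hxx, hx, hx'⟩ := hG q.tgt
    have h2 : ∀ x : E, G.s x = q.tgt → ∃ l, q.lst = l ++ [x] := by
      intro x hx
      have ht : q.tgt = (Fam.edg G x).src := hx.symm
      have h3 : Pa.Desc (Fam.edg G x) (q.comp (Fam.edg G x) ht) := by
        refine coef hI c (Fam.edg G x) {q | Pa.Desc (Fam.edg G x) q} ?_ q hq ht
        rw [hcs', hy]
        exact pe_mul_mem f _ hO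
      obtain ⟨_, l, hl⟩ := h3
      change [x] ++ q.lst = l ++ [x] at hl
      have h4 : [x] <:+ [x] ++ q.lst := ⟨l, hl.symm⟩
      have h5 : q.lst <:+ [x] ++ q.lst := ⟨[x], rfl⟩
      have h6 : 1 ≤ q.lst.length := Nat.one_le_iff_ne_zero.2 hlen
      obtain ⟨t, ht⟩ := List.suffix_of_suffix_length_le h4 h5 (by simpa using h6)
      exact ⟨t, ht.symm⟩
    obtain ⟨l, hl⟩ := h2 x hx
    obtain ⟨l', hl'⟩ := h2 x' hx'
    rw [hl] at hl'
    have := List.append_inj_right' hl' rfl
    simp only [List.cons.injEq, and_true] at this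
    exact hxx this
  -- y is a combination of the vertices
  set d : V → k := fun a => c (Pa.triv G a) with hd
  have h2 : y = ∑ a, d a • f.v a := by
    rw [← hcs', Finsupp.linearCombination_apply, Finsupp.sum]
    have h3 : ∑ a, d a • f.v a =
        ∑ q ∈ Finset.univ.image (Pa.triv G), c q • f.pe q := by
      rw [Finset.sum_image]
      · rfl
      · intro a _ b _ hab
        exact congrArg Pa.src hab
    rw [h3]
    refine Finset.sum_subset ?_ ?_
    · intro q hq
      rw [Finset.mem_image]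
      refine ⟨q.src, Finset.mem_univ _, ?_⟩
      exact (Pa.eq_triv q (h1 q (Finsupp.mem_support_iff.1 hq))).symm
    · intro q _ hq
      rw [Finsupp.notMem_support_iff.1 hq, zero_smul]
  have h3 : ∀ x : E, d (G.s x) = d (G.r x) := by
    intro x
    have h4 := hy (f.e x)
    rw [h2, Finset.sum_mul, Finset.mul_sum] at h4
    have h5 : ∑ a, d a • f.v a * f.e x = d (G.s x) • f.e x := by
      rw [Finset.sum_eq_single (G.s x)]
      · rw [smul_mul_assoc, f.se]
      · intro b _ hb
        rw [smul_mul_assoc, f.v_mul_e, if_neg hb, smul_zero]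
      · intro h
        exact absurd (Finset.mem_univ _) h
    have h6 : ∑ a, f.e x * d a • f.v a = d (G.r x) • f.e x := by
      rw [Finset.sum_eq_single (G.r x)]
      · rw [mul_smul_comm, f.er]
      · intro b _ hb
        rw [mul_smul_comm, f.e_mul_v, if_neg (Ne.symm hb), smul_zero]
      · intro h
        exact absurd (Finset.mem_univ _) h
    rw [h5, h6] at h4
    have h7 : f.e x ≠ 0 := by
      rw [← f.pe_edg]
      exact hI.ne_zero _
    have h8 : (d (G.s x) - d (G.r x)) • f.e x = 0 := by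
      rw [sub_smul, h4, sub_self]
    rcases smul_eq_zero.1 h8 with h | h
    · exact sub_eq_zero.1 h
    · exact absurd h h7
  have h4 : ∀ a b : V, G.Reach a b → d a = d b := by
    intro a b h
    induction h with
    | refl => rfl
    | snoc e _ ih => rw [ih, h3]
  rcases isEmpty_or_nonempty V with hV | ⟨⟨a0⟩⟩
  · refine ⟨0, ?_⟩
    rw [h2, map_zero]
    exact Finset.sum_of_isEmpty _
  · refine ⟨d a0, ?_⟩
    rw [h2, Algebra.algebraMap_eq_smul_one, ← f.one, Finset.smul_sum]
    refine Finset.sum_congr rfl fun a _ => ?_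
    rw [h4 a0 a (hc a0 a)]

end

theorem hCEN : StCen.{u} := by
  intro k _ V E _ _ _ _ G hc hG y hy
  have hout : ∀ a : V, ∃ x : E, G.s x = a := fun a => by
    obtain ⟨e, _, _, h, _⟩ := hG a
    exact ⟨e, h⟩
  exact central_scalar (canon k G) (canon_gens k G) (canon_indep k G hout) hc hG y hy

end Pool.Agent.Helper42.SI
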