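import Pool.Agent.Helper99.SI.StT

set_option autoImplicit false

/-!
# Project SI: module E4 (the edge s = 1)
-/

namespace Pool.Agent.Helper42.SI

open Pool.Agent.Helper99.SI
open Pool.Agent.Helper92 Pool.Agent.Helper92.LV

section deg

variable {L : Type} [Ring L] [Algebra ℂ L] [StarRing L] (B : ZGr L)

/-- All components of degree less than d vanish. -/
def e4Ge (d : ℤ) (y : L) : Prop := ∀ j < d, B.p j y = 0

/-- All components of degree greater than d vanish. -/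
def e4Le (d : ℤ) (y : L) : Prop := ∀ j > d, B.p j y = 0

variable {B}

lemma e4Ge_mul (h : ∀ (k : ℤ) (y z : L), B.p k (y * z) = ∑ᶠ i : ℤ, B.p i y * B.p (k - i) z)
    {d d' : ℤ} {y z : L} (hy : e4Ge B d y) (hz : e4Ge B d' z) : e4Ge B (d + d') (y * z) := by
  intro k hk
  rw [h, ← finsum_zero (α := ℤ) (M := L)]
  refine finsum_congr fun i => ?_
  by_cases hi : i < d
  · rw [hy i hi, zero_mul]
  · rw [hz (k - i) (by omega), mul_zero]

lemma e4Le_mul (h : ∀ (k : ℤ) (y z : L), B.p k (y * z) = ∑ᶠ i : ℤ, B.p i y * B.p (k - i) z)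
    {d d' : ℤ} {y z : L} (hy : e4Le B d y) (hz : e4Le B d' z) : e4Le B (d + d') (y * z) := by
  intro k hk
  rw [h, ← finsum_zero (α := ℤ) (M := L)]
  refine finsum_congr fun i => ?_
  by_cases hi : i > d
  · rw [hy i hi, zero_mul]
  · rw [hz (k - i) (by omega), mul_zero]

lemma e4Ge_sum {ι : Type} (s : Finset ι) {d : ℤ} {f : ι → L} (h : ∀ i ∈ s, e4Ge B d (f i)) :
    e4Ge B d (∑ i ∈ s, f i) := by
  intro j hj
  rw [map_sum]
  exact Finset.sum_eq_zero fun i hi => h i hi j hj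

lemma e4Le_sum {ι : Type} (s : Finset ι) {d : ℤ} {f : ι → L} (h : ∀ i ∈ s, e4Le B d (f i)) :
    e4Le B d (∑ i ∈ s, f i) := by
  intro j hj
  rw [map_sum]
  exact Finset.sum_eq_zero fun i hi => h i hi j hj

lemma e4Ge_ev (h : ∀ (t : ℂ) (j : ℤ) (y : L), B.p j (B.ev t y) = t ^ j • B.p j y) (t : ℂ)
    {d : ℤ} {y : L} (hy : e4Ge B d y) : e4Ge B d (B.ev t y) := by
  intro j hj
  rw [h, hy j hj, smul_zero]

lemma e4Le_ev (h : ∀ (t : ℂ) (j : ℤ) (y : L), B.p j (B.ev t y) = t ^ j • B.p j y) (t : ℂ)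
    {d : ℤ} {y : L} (hy : e4Le B d y) : e4Le B d (B.ev t y) := by
  intro j hj
  rw [h, hy j hj, smul_zero]

lemma e4_star {d : ℤ} {y : L} (hy : e4Ge B d y) : e4Le B (-d) (star y) := by
  intro j hj
  have h := B.st (-j) y
  rw [neg_neg, hy (-j) (by omega), star_zero] at h
  exact h

lemma e4_bd {ι : Type} [Finite ι] (f : ι → L) :
    ∃ d : ℕ, ∀ i, e4Ge B (-(d : ℤ)) (f i) ∧ e4Le B (d : ℤ) (f i) := by
  classical
  have hfin : (⋃ i, {j : ℤ | B.p j (f i) ≠ 0}).Finite := Set.finite_iUnion fun i => B.fin (f i)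
  obtain ⟨u, hu⟩ := hfin.bddAbove
  obtain ⟨l, hl⟩ := hfin.bddBelow
  refine ⟨u.natAbs + l.natAbs, fun i => ⟨?_, ?_⟩⟩
  · intro j hj
    by_contra hc
    have := hl (Set.mem_iUnion.2 ⟨i, hc⟩)
    omega
  · intro j hj
    by_contra hc
    have := hu (Set.mem_iUnion.2 ⟨i, hc⟩)
    omega

/-- A linear map killing the components of nonzero degree. -/
lemma e4_kill {M : Type} [AddCommGroup M] [Module ℂ M] (p : L →ₗ[ℂ] M)
    (hp : ∀ (j : ℤ) (y : L), j ≠ 0 → p (B.p j y) = 0) (y : L) (hy : B.p 0 y = 0) : p y = 0 := by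
  conv_lhs => rw [← B.sum y]
  rw [show p (∑ᶠ j : ℤ, B.p j y) = ∑ᶠ j : ℤ, p (B.p j y) from
    p.toAddMonoidHom.map_finsum (B.fin y), ← finsum_zero (α := ℤ) (M := M)]
  refine finsum_congr fun j => ?_
  by_cases hj : j = 0
  · rw [hj, hy, map_zero]
  · exact hp j y hj

lemma e4_ev_sum (t : ℂ) (y : L) :
    B.ev t y = ∑ j ∈ (B.fin y).toFinset, t ^ j • B.p j y := by
  change ∑ᶠ j : ℤ, t ^ j • B.p j y = _
  rw [finsum_eq_sum_of_support_subset]
  intro j hj
  rw [Finset.mem_coe, Set.Finite.mem_toFinset]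
  intro h0
  apply hj
  change t ^ j • B.p j y = 0
  rw [h0, smul_zero]

end deg

section twist

variable {L : Type} [Ring L] [Algebra ℂ L] [StarRing L] (B : ZGr L)

/-- h_t y = sum of b_l y ev t (a_l). -/
noncomputable def e4h {m : ℕ} (a b : Fin m → L) (t : ℂ) : L →ₗ[ℂ] L :=
  ∑ l, (LinearMap.mulLeft ℂ (b l)) ∘ₗ (LinearMap.mulRight ℂ (B.ev t (a l)))

lemma e4h_apply {m : ℕ} (a b : Fin m → L) (t : ℂ) (y : L) :
    e4h B a b t y = ∑ l, b l * y * B.ev t (a l) := by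
  rw [e4h, LinearMap.sum_apply]
  refine Finset.sum_congr rfl fun l _ => ?_
  rw [LinearMap.comp_apply, LinearMap.mulLeft_apply, LinearMap.mulRight_apply, mul_assoc]

lemma e4h_ge {m : ℕ} (a b : Fin m → L)
    (h1 : ∀ (k : ℤ) (y z : L), B.p k (y * z) = ∑ᶠ i : ℤ, B.p i y * B.p (k - i) z)
    (h2 : ∀ (t : ℂ) (j : ℤ) (y : L), B.p j (B.ev t y) = t ^ j • B.p j y) :
    ∃ d : ℕ, ∀ (t : ℂ) (y : L),
      (e4Ge B (d + 1) y → B.p 0 (e4h B a b t y) = 0) ∧
      (e4Le B (-(d + 1)) y → B.p 0 (e4h B a b t y) = 0) := by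
  obtain ⟨d1, hd1⟩ := e4_bd (B := B) a
  obtain ⟨d2, hd2⟩ := e4_bd (B := B) b
  refine ⟨d1 + d2, fun t y => ⟨fun hy => ?_, fun hy => ?_⟩⟩
  · rw [e4h_apply]
    refine e4Ge_sum (d := -(d2 : ℤ) + (((d1 + d2 : ℕ) : ℤ) + 1) + -(d1 : ℤ)) _ (fun l _ => ?_) 0
      (by push_cast; omega)
    exact e4Ge_mul h1 (e4Ge_mul h1 (hd2 l).1 hy) (e4Ge_ev h2 t (hd1 l).1)
  · rw [e4h_apply]
    refine e4Le_sum (d := (d2 : ℤ) + -(((d1 + d2 : ℕ) : ℤ) + 1) + (d1 : ℤ)) _ (fun l _ => ?_) 0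
      (by push_cast; omega)
    exact e4Le_mul h1 (e4Le_mul h1 (hd2 l).2 hy) (e4Le_ev h2 t (hd1 l).2)

lemma e4h_cont {m : ℕ} (a b : Fin m → L) (q : L →ₗ[ℂ] ℂ) (y : L) :
    ContinuousOn (fun t : ℝ => q (e4h B a b (t : ℂ) y)) (Set.Ioo 0 1) := by
  have h : ∀ t : ℝ, q (e4h B a b (t : ℂ) y) = ∑ l, ∑ j ∈ (B.fin (a l)).toFinset,
      (t : ℂ) ^ j * q (b l * y * B.p j (a l)) := by
    intro t
    rw [e4h_apply, map_sum]
    refine Finset.sum_congr rfl fun l _ => ?_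
    rw [e4_ev_sum, Finset.mul_sum, map_sum]
    refine Finset.sum_congr rfl fun j _ => ?_
    rw [mul_smul_comm, map_smul, smul_eq_mul]
  simp only [h]
  refine continuousOn_finsetSum _ fun l _ => continuousOn_finsetSum _ fun j _ => ?_
  refine ContinuousOn.mul ?_ continuousOn_const
  refine ContinuousOn.zpow₀ Complex.continuous_ofReal.continuousOn j fun t ht => Or.inl ?_
  exact_mod_cast ht.1.ne'

end twist

theorem hE4 (h1 : StA0) (h2 : StE0) (h3 : StE2) (h4 : StE3) : StE4 := by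
  intro n V E _ _ _ _ G L _ _ _ _ _ T D X0 hn hG hdet hx hb hX0
  obtain ⟨hmul, -, -, -, -, -, hpev, -, -, -⟩ := h1 L T.b
  obtain ⟨p, pv, pk, pΦ, Φv, pnil⟩ := h3 n V E G L T hG hdet
  obtain ⟨m, m', a, b, a', b', hE3⟩ := h4 n V E G L T hn hG
  -- the projection
  let P : L →ₗ[ℂ] L := ∑ c, ((LinearMap.proj c).comp p).smulRight (T.f.v c)
  have hP : ∀ y, P y = ∑ c, p y c • T.f.v c := by
    intro y
    change (∑ c, ((LinearMap.proj c).comp p).smulRight (T.f.v c)) y = _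
    rw [LinearMap.sum_apply]
    rfl
  have pP : ∀ y, p (P y) = p y := by
    intro y
    rw [hP, map_sum]
    funext c
    rw [Finset.sum_apply]
    simp only [map_smul, pv, Pi.smul_apply, Pi.single_apply, smul_eq_mul, mul_ite, mul_one,
      mul_zero]
    rw [Finset.sum_ite_eq]
    simp
  have PP : ∀ y, P (P y) = P y := by
    intro y
    rw [hP (P y), pP, ← hP]
  have ΦP : ∀ y, T.PhiG (P y) = ∑ c, (∑ c', p y c' * (adjm G c' c : ℂ)) • T.f.v c := by
    intro y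
    rw [hP, map_sum]
    simp only [map_smul, Φv, Finset.smul_sum, smul_smul]
    rw [Finset.sum_comm]
    refine Finset.sum_congr rfl fun c _ => ?_
    rw [Finset.sum_smul]
  have PΦ : ∀ y, P (T.PhiG y) = T.PhiG (P y) := by
    intro y
    rw [ΦP, hP]
    simp only [pΦ]
  have Pv : ∀ c, P (T.f.v c) = T.f.v c := by
    intro c
    rw [hP, pv]
    simp only [Pi.single_apply, ite_smul, one_smul, zero_smul]
    rw [Finset.sum_ite_eq']
    simp
  have nil : ∀ x, P x = 0 → ∃ k j : ℕ, 1 ≤ j ∧ (T.PhiG ^ (k + j)) x = (T.PhiG ^ k) x := by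
    intro x hx0
    apply pnil
    rw [← pP, hx0, map_zero]
  have Fbij : ∀ t : ℝ, 0 < t → t < 1 →
      Function.Bijective (fun x : L => x - (t : ℂ) • T.PhiG (x - P x)) := fun t ht ht1 =>
    h2 L T.PhiG P t ht.le ht1 PP PΦ nil
  -- the functionals
  let lam : ℝ → V → (L →ₗ[ℂ] ℂ) := fun t c =>
    (t : ℂ) • ∑ c', (adjm G c' c : ℂ) • ((LinearMap.proj c').comp (p.comp (e4h T.b a b (t : ℂ))))
  have hlam : ∀ (t : ℝ) (c : V) (y : L),
      lam t c y = (t : ℂ) * ∑ c', p (e4h T.b a b (t : ℂ) y) c' * (adjm G c' c : ℂ) := by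
    intro t c y
    change ((t : ℂ) • ∑ c', (adjm G c' c : ℂ) •
      ((LinearMap.proj c').comp (p.comp (e4h T.b a b (t : ℂ))))) y = _
    rw [LinearMap.smul_apply, LinearMap.sum_apply, smul_eq_mul]
    congr 1
    refine Finset.sum_congr rfl fun c' _ => ?_
    rw [LinearMap.smul_apply, smul_eq_mul, mul_comm]
    rfl
  have hmain : ∀ (t : ℝ) (y : L), 0 < t →
      y - D.Phi (t : ℂ) y + ∑ c, lam t c y • T.f.v c =
        (fun x : L => x - (t : ℂ) • T.PhiG (x - P x)) (e4h T.b a b (t : ℂ) y) := by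
    intro t y ht
    have ht0 : (t : ℂ) ≠ 0 := by exact_mod_cast ht.ne'
    obtain ⟨-, -, e3⟩ := hE3 (t : ℂ) y ht0
    have e4 : D.Phi (t : ℂ) y = ∑ i, star (T.fE.e i) * y * T.b.ev (t : ℂ) (T.fE.e i) := by
      rw [Sys.Phi, LinearMap.sum_apply]
      refine Finset.sum_congr rfl fun i _ => ?_
      rw [LinearMap.comp_apply, LinearMap.mulLeft_apply, LinearMap.mulRight_apply, hx, hb,
        mul_assoc]
    rw [e4, e3, ← e4h_apply]
    change _ = e4h T.b a b (t : ℂ) y - (t : ℂ) • T.PhiG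
      (e4h T.b a b (t : ℂ) y - P (e4h T.b a b (t : ℂ) y))
    rw [map_sub, smul_sub, ΦP, Finset.smul_sum]
    have e5 : ∑ c, lam t c y • T.f.v c =
        ∑ c, (t : ℂ) • (∑ c', p (e4h T.b a b (t : ℂ) y) c' * (adjm G c' c : ℂ)) • T.f.v c := by
      refine Finset.sum_congr rfl fun c _ => ?_
      rw [hlam, mul_smul]
    rw [e5]
    abel
  have hbij : ∀ t : ℝ, 0 < t → Function.Bijective (fun y : L => e4h T.b a b (t : ℂ) y) := by
    intro t ht
    have ht0 : (t : ℂ) ≠ 0 := by exact_mod_cast ht.ne'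
    rw [Function.bijective_iff_has_inverse]
    refine ⟨fun y => e4h T.b a' b' (t : ℂ) y, fun y => ?_, fun y => ?_⟩
    · change e4h T.b a' b' (t : ℂ) (e4h T.b a b (t : ℂ) y) = y
      rw [e4h_apply, e4h_apply]
      exact (hE3 (t : ℂ) y ht0).1
    · change e4h T.b a b (t : ℂ) (e4h T.b a' b' (t : ℂ) y) = y
      rw [e4h_apply, e4h_apply]
      exact (hE3 (t : ℂ) y ht0).2.1
  refine ⟨T.f.v, lam, hX0, ?_, ?_, ?_, ?_⟩
  · intro t ht ht1
    have e1 : (fun y : L => y - D.Phi (t : ℂ) y + ∑ c, lam t c y • T.f.v c) =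
        (fun x : L => x - (t : ℂ) • T.PhiG (x - P x)) ∘
          (fun y : L => e4h T.b a b (t : ℂ) y) := by
      funext y
      exact hmain t y ht
    rw [e1]
    exact (Fbij t ht ht1).comp (hbij t ht)
  · intro t ht ht1 c y hy c'
    rw [hmain t y ht] at hy
    have e1 : (fun x : L => x - (t : ℂ) • T.PhiG (x - P x)) (T.f.v c) = T.f.v c := by
      change T.f.v c - (t : ℂ) • T.PhiG (T.f.v c - P (T.f.v c)) = _
      rw [Pv, sub_self, map_zero, smul_zero, sub_zero]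
    have e2 : e4h T.b a b (t : ℂ) y = T.f.v c := (Fbij t ht ht1).1 (hy.trans e1.symm)
    rw [hlam, e2, pv]
    simp only [Pi.single_apply, ite_mul, one_mul, zero_mul]
    rw [Finset.sum_ite_eq']
    simp
  · intro c y
    simp only [hlam]
    refine ContinuousOn.mul Complex.continuous_ofReal.continuousOn ?_
    refine continuousOn_finsetSum _ fun c' _ => ContinuousOn.mul ?_ continuousOn_const
    exact e4h_cont T.b a b ((LinearMap.proj c').comp p) y
  · obtain ⟨d, hd⟩ := e4h_ge T.b a b hmul hpev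
    obtain ⟨l, hl⟩ := D.G1 ((d : ℤ) + 1)
    rw [hb] at hl
    refine ⟨l, fun t ht ht1 c ν hν => ?_⟩
    have e1 : e4Ge T.b ((d : ℤ) + 1) (D.w ν) := fun i hi => hl ν hν i hi
    have e2 : p (e4h T.b a b (t : ℂ) (T.b.ev (t : ℂ) (D.w ν))) = 0 :=
      e4_kill p pk _ ((hd (t : ℂ) _).1 (e4Ge_ev hpev _ e1))
    have e3 : p (e4h T.b a b (t : ℂ) (star (D.w ν))) = 0 :=
      e4_kill p pk _ ((hd (t : ℂ) _).2 (e4_star e1))
    constructor
    · rw [hb, hlam, e2]
      simp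
    · rw [hlam, e3]
      simp

end Pool.Agent.Helper42.SI
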