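import Pool.Agent.Helper99.SI.StM

set_option autoImplicit false

/-!
# Project SI: module M5 (independence and saturation)
-/

namespace Pool.Agent.Helper42.SI

open Pool.Agent.Helper99.SI
open LaurentPolynomial

section basic

variable {L : Type} [Ring L] [Algebra ℂ L]

lemma m5_coeff_smul (c : ℂ) (j : ℤ) (y : LL L) (k : ℤ) :
    ((C c * T j : AA) • y).coeff k = c • y.coeff (k - j) := by
  rw [smul_def', cen_CT, ← single_eq_C_mul_T, AddMonoidAlgebra.coeff_single_mul_apply,
    Algebra.smul_def]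
  congr 2
  ring

lemma m5_coeff_C (y : L) (k : ℤ) : (C y : LL L).coeff k = if k = 0 then y else 0 := by
  have h : (C y : LL L) = AddMonoidAlgebra.single 0 y := rfl
  rw [h, AddMonoidAlgebra.coeff_single, Finsupp.single_apply]
  simp only [eq_comm]

lemma m5_coeff_smul_C (a : AA) (y : L) (k : ℤ) : (a • (C y : LL L)).coeff k = a.coeff k • y := by
  induction a using LaurentPolynomial.induction_on' with
  | add p q hp hq =>
    rw [add_smul, AddMonoidAlgebra.coeff_add, AddMonoidAlgebra.coeff_add, Finsupp.add_apply,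
      Finsupp.add_apply, hp, hq, add_smul]
  | C_mul_T j c =>
    rw [m5_coeff_smul, m5_coeff_C, ← single_eq_C_mul_T, AddMonoidAlgebra.coeff_single,
      Finsupp.single_apply]
    by_cases h : j = k
    · rw [if_pos h, if_pos (by omega)]
    · rw [if_neg h, if_neg (by omega), smul_zero, zero_smul]

/-- The coefficientwise lift of a linear map. -/
noncomputable def m5L (f : L →ₗ[ℂ] L) : LL L →ₗ[AA] LL L where
  toFun y := AddMonoidAlgebra.ofCoeff (y.coeff.mapRange f (map_zero f))
  map_add' y z := by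
    ext k
    simp
  map_smul' a y := by
    rw [RingHom.id_apply]
    induction a using LaurentPolynomial.induction_on' with
    | add p q hp hq =>
      rw [add_smul, add_smul, ← hp, ← hq]
      ext k
      simp
    | C_mul_T j c =>
      ext k
      rw [m5_coeff_smul, AddMonoidAlgebra.coeff_ofCoeff, AddMonoidAlgebra.coeff_ofCoeff,
        Finsupp.mapRange_apply, Finsupp.mapRange_apply, m5_coeff_smul, map_smul]

lemma m5L_coeff (f : L →ₗ[ℂ] L) (y : LL L) (k : ℤ) : (m5L f y).coeff k = f (y.coeff k) := rfl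

lemma m5L_C (f : L →ₗ[ℂ] L) (y : L) : m5L f (C y) = C (f y) := by
  ext k
  rw [m5L_coeff, m5_coeff_C, m5_coeff_C]
  split_ifs
  · rfl
  · exact map_zero f

lemma m5_C_smul (c : ℂ) (y : L) : (C (c • y) : LL L) = (C c : AA) • C y := by
  ext k
  rw [m5_coeff_smul_C, m5_coeff_C, m5_coeff_C]
  split_ifs
  · rfl
  · rw [zero_smul]

/-- Independence over ℂ gives independence over AA. -/
lemma m5_li {ι : Type} (u : ι → L) (hu : LinearIndependent ℂ u) :
    LinearIndependent AA (fun i => (C (u i) : LL L)) := by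
  rw [linearIndependent_iff'] at hu ⊢
  intro s g hg i hi
  ext k
  have h1 := hu s (fun i => (g i).coeff k) ?_ i hi
  · rw [h1]; rfl
  · have h2 : (∑ i ∈ s, g i • (C (u i) : LL L)).coeff k = (0 : LL L).coeff k := by rw [hg]
    rw [AddMonoidAlgebra.coeff_sum, Finsupp.finset_sum_apply] at h2
    simp only [m5_coeff_smul_C] at h2
    exact h2

lemma m5_span (X : Set L) :
    Submodule.span AA ((fun v : L => (C v : LL L)) '' X) =
      Submodule.span AA ((fun v : L => (C v : LL L)) '' (Submodule.span ℂ X : Set L)) := by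
  apply le_antisymm
  · exact Submodule.span_mono (Set.image_mono Submodule.subset_span)
  · rw [Submodule.span_le]
    rintro _ ⟨x, hx, rfl⟩
    have hx' : x ∈ Submodule.span ℂ X := hx
    change (C x : LL L) ∈ Submodule.span AA ((fun v : L => (C v : LL L)) '' X)
    induction hx' using Submodule.span_induction with
    | mem y hy => exact Submodule.subset_span ⟨y, hy, rfl⟩
    | zero => rw [map_zero]; exact Submodule.zero_mem _
    | add y z _ _ hy hz => rw [map_add]; exact Submodule.add_mem _ (hy ‹_›) (hz ‹_›)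
    | smul c y _ hy => rw [m5_C_smul]; exact Submodule.smul_mem _ _ (hy ‹_›)

lemma m5_sat (h : StM1) (X : Set L) (a : AA) (ha : a ≠ 0) (y : LL L)
    (hy : a • y ∈ Submodule.span AA ((fun v : L => (C v : LL L)) '' X)) :
    y ∈ Submodule.span AA ((fun v : L => (C v : LL L)) '' X) := by
  obtain ⟨h1, h2⟩ := h L (Submodule.span ℂ X)
  rw [m5_span, h1] at hy ⊢
  exact h2 a y ha hy

end basic

section grading

variable {L : Type} [Ring L] [Algebra ℂ L] [StarRing L] (B : ZGr L)

open Classical in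
/-- The projection onto the degrees satisfying P. -/
noncomputable def m5P (P : ℤ → Prop) : L →ₗ[ℂ] L := B.comb fun j => if P j then 1 else 0

open Classical in
lemma m5P_apply (P : ℤ → Prop) (y : L) :
    m5P B P y = ∑ᶠ j : ℤ, (if P j then (1 : ℂ) else 0) • B.p j y := rfl

lemma m5P_self (P : ℤ → Prop) (y : L) (h : ∀ i, B.p i y ≠ 0 → P i) : m5P B P y = y := by
  classical
  rw [m5P_apply]
  conv_rhs => rw [← B.sum y]
  refine finsum_congr fun j => ?_
  by_cases hj : B.p j y = 0
  · rw [hj, smul_zero]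
  · rw [if_pos (h j hj), one_smul]

lemma m5P_zero (P : ℤ → Prop) (y : L) (h : ∀ i, B.p i y ≠ 0 → ¬ P i) : m5P B P y = 0 := by
  classical
  rw [m5P_apply]
  rw [← finsum_zero (α := ℤ) (M := L)]
  refine finsum_congr fun j => ?_
  by_cases hj : B.p j y = 0
  · rw [hj, smul_zero]
  · rw [if_neg (h j hj), zero_smul]

lemma m5P_sum (y : L) :
    m5P B (fun j => 1 ≤ j) y + m5P B (fun j => j = 0) y + m5P B (fun j => j ≤ -1) y = y := by
  classical
  rw [m5P_apply, m5P_apply, m5P_apply, ← finsum_add_distrib (B.fin' _ y) (B.fin' _ y),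
    ← finsum_add_distrib _ (B.fin' _ y)]
  · conv_rhs => rw [← B.sum y]
    refine finsum_congr fun j => ?_
    rcases lt_trichotomy j 0 with hj | hj | hj
    · rw [if_neg (by omega), if_neg (by omega), if_pos (by omega), zero_smul, zero_add, zero_add,
        one_smul]
    · rw [if_neg (by omega), if_pos hj, if_neg (by omega), zero_smul, zero_add, one_smul, add_zero]
    · rw [if_pos (by omega), if_neg (by omega), if_neg (by omega), one_smul, zero_smul, add_zero,
        add_zero]
  · refine (B.fin y).subset ?_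
    intro j hj h
    apply hj
    change _ • B.p j y + _ • B.p j y = 0
    rw [h, smul_zero, smul_zero, add_zero]

lemma m5L_sum (y : LL L) :
    m5L (m5P B (fun j => 1 ≤ j)) y + m5L (m5P B (fun j => j = 0)) y +
      m5L (m5P B (fun j => j ≤ -1)) y = y := by
  ext k
  rw [AddMonoidAlgebra.coeff_add, AddMonoidAlgebra.coeff_add, Finsupp.add_apply,
    Finsupp.add_apply, m5L_coeff, m5L_coeff, m5L_coeff, m5P_sum]

/-- On bt y. -/
lemma m5L_bt_self (P : ℤ → Prop) (y : L) (h : ∀ i, B.p i y ≠ 0 → P i) :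
    m5L (m5P B P) (B.bt y) = B.bt y := by
  ext k
  rw [m5L_coeff, B.bt_coeff]
  apply m5P_self
  intro i hi
  rw [B.pp] at hi
  split_ifs at hi with hik
  · subst hik; exact h _ hi
  · exact absurd rfl hi

lemma m5L_bt_zero (P : ℤ → Prop) (y : L) (h : ∀ i, B.p i y ≠ 0 → ¬ P i) :
    m5L (m5P B P) (B.bt y) = 0 := by
  ext k
  rw [m5L_coeff, B.bt_coeff]
  apply m5P_zero
  intro i hi
  rw [B.pp] at hi
  split_ifs at hi with hik
  · subst hik; exact h _ hi
  · exact absurd rfl hi

lemma m5_star (y : L) (i : ℤ) (hi : B.p i (star y) ≠ 0) : B.p (-i) y ≠ 0 := by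
  intro h
  apply hi
  have := B.st (-i) y
  rw [neg_neg, h, star_zero] at this
  exact this

end grading

theorem hM5 (h1 : StA0) (h2 : StA3) (h3 : StM0) (h4 : StM1) : StM5 := by
  intro n L _ _ _ _ _ D M hM
  obtain ⟨hw, -⟩ := h2 n L D
  obtain ⟨-, -, -, -, -, -, -, -, -, -, ⟨θ, hθ⟩, -⟩ := h3 L D.b
  have hdeg : ∀ ν : W n, M ≤ ν.length → ∀ i, D.b.p i (D.w ν) ≠ 0 → (1 : ℤ) ≤ i := by
    intro ν hν i hi
    by_contra hc
    exact hi (hM ν hν i (by omega))
  have hdegs : ∀ ν : W n, M ≤ ν.length → ∀ i, D.b.p i (star (D.w ν)) ≠ 0 → i ≤ (-1 : ℤ) := by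
    intro ν hν i hi
    have := hdeg ν hν (-i) (m5_star D.b _ i hi)
    omega
  -- the three projections on the generators
  set Fp := m5L (m5P D.b (fun j => 1 ≤ j)) with hFp
  set F0 := m5L (m5P D.b (fun j => j = 0)) with hF0
  set Fm := m5L (m5P D.b (fun j => j ≤ -1)) with hFm
  have pp : ∀ ν : W n, M ≤ ν.length → Fp (D.b.bt (D.w ν)) = D.b.bt (D.w ν) :=
    fun ν hν => m5L_bt_self _ _ _ (hdeg ν hν)
  have p0 : ∀ ν : W n, M ≤ ν.length → F0 (D.b.bt (D.w ν)) = 0 :=
    fun ν hν => m5L_bt_zero _ _ _ fun i hi => by have := hdeg ν hν i hi; omega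
  have pm : ∀ ν : W n, M ≤ ν.length → Fm (D.b.bt (D.w ν)) = 0 :=
    fun ν hν => m5L_bt_zero _ _ _ fun i hi => by have := hdeg ν hν i hi; omega
  have np : ∀ ν : W n, M ≤ ν.length → Fp (C (star (D.w ν))) = 0 := by
    intro ν hν
    rw [hFp, m5L_C, m5P_zero, map_zero]
    intro i hi
    have := hdegs ν hν i hi
    omega
  have n0 : ∀ ν : W n, M ≤ ν.length → F0 (C (star (D.w ν))) = 0 := by
    intro ν hν
    rw [hF0, m5L_C, m5P_zero, map_zero]
    intro i hi
    have := hdegs ν hν i hi
    omega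
  have nm : ∀ ν : W n, M ≤ ν.length → Fm (C (star (D.w ν))) = C (star (D.w ν)) := by
    intro ν hν
    rw [hFm, m5L_C, m5P_self]
    exact hdegs ν hν
  set PS : Set (LL L) := {y | ∃ ν : W n, M ≤ ν.length ∧ y = D.b.bt (D.w ν)} with hPS
  set NS : Set (LL L) := {y | ∃ ν : W n, M ≤ ν.length ∧ y = C (star (D.w ν))} with hNS
  have Pp : ∀ y ∈ Submodule.span AA PS, Fp y = y := fun y hy =>
    LinearMap.eqOn_span (f := Fp) (g := LinearMap.id)
      (by rintro _ ⟨ν, hν, rfl⟩; exact pp ν hν) hy
  have P0 : ∀ y ∈ Submodule.span AA PS, F0 y = 0 := fun y hy =>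
    LinearMap.eqOn_span (f := F0) (g := 0)
      (by rintro _ ⟨ν, hν, rfl⟩; exact p0 ν hν) hy
  have Pm : ∀ y ∈ Submodule.span AA PS, Fm y = 0 := fun y hy =>
    LinearMap.eqOn_span (f := Fm) (g := 0)
      (by rintro _ ⟨ν, hν, rfl⟩; exact pm ν hν) hy
  have Np : ∀ y ∈ Submodule.span AA NS, Fp y = 0 := fun y hy =>
    LinearMap.eqOn_span (f := Fp) (g := 0)
      (by rintro _ ⟨ν, hν, rfl⟩; exact np ν hν) hy
  have N0 : ∀ y ∈ Submodule.span AA NS, F0 y = 0 := fun y hy =>
    LinearMap.eqOn_span (f := F0) (g := 0)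
      (by rintro _ ⟨ν, hν, rfl⟩; exact n0 ν hν) hy
  have Nm : ∀ y ∈ Submodule.span AA NS, Fm y = y := fun y hy =>
    LinearMap.eqOn_span (f := Fm) (g := LinearMap.id)
      (by rintro _ ⟨ν, hν, rfl⟩; exact nm ν hν) hy
  constructor
  · refine LinearIndependent.sum_type ?_ ?_ ?_
    · have e1 := m5_li (fun ν : {ν : W n // M ≤ ν.length} => D.w ν.1)
        (hw.comp _ Subtype.val_injective)
      have e2 := e1.map' θ.toLinearMap θ.ker
      have e3 : (θ.toLinearMap ∘ fun ν : {ν : W n // M ≤ ν.length} => (C (D.w ν.1) : LL L)) =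
          fun ν : {ν : W n // M ≤ ν.length} => D.b.bt (D.w ν.1) := by
        funext ν
        exact hθ _
      rw [e3] at e2
      exact e2
    · apply m5_li (fun ν : {ν : W n // M ≤ ν.length} => star (D.w ν.1))
      have e1 : LinearIndependent ℂ (fun ν : {ν : W n // M ≤ ν.length} => D.w ν.1) :=
        hw.comp _ Subtype.val_injective
      rw [linearIndependent_iff'] at e1 ⊢
      intro s g hg i hi
      have e2 : ∑ i ∈ s, star (g i) • D.w i.1 = 0 := by
        have := congrArg star hg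
        rw [star_sum, star_zero] at this
        simpa only [star_smul, star_star] using this
      exact star_eq_zero.1 (e1 s (fun i => star (g i)) e2 i hi)
    · rw [Submodule.disjoint_def]
      intro y hy hy'
      have r1 : Set.range (fun ν : {ν : W n // M ≤ ν.length} => D.b.bt (D.w ν.1)) ⊆ PS := by
        rintro _ ⟨ν, rfl⟩; exact ⟨ν.1, ν.2, rfl⟩
      have r2 : Set.range (fun ν : {ν : W n // M ≤ ν.length} => (C (star (D.w ν.1)) : LL L)) ⊆
          NS := by
        rintro _ ⟨ν, rfl⟩; exact ⟨ν.1, ν.2, rfl⟩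
      have q1 := Pp y (Submodule.span_mono r1 hy)
      have q2 := Np y (Submodule.span_mono r2 hy')
      rw [← q1, q2]
  · intro a w ha hw'
    have hPN : D.PN M = Submodule.span AA PS ⊔ Submodule.span AA NS := by
      rw [Sys.PN, Submodule.span_union]
    rw [hPN] at hw' ⊢
    obtain ⟨p, hp, q, hq, hpq⟩ := Submodule.mem_sup.1 hw'
    have s1 : a • Fp w = p := by
      rw [← map_smul, ← hpq, map_add, Pp p hp, Np q hq, add_zero]
    have s2 : a • F0 w = 0 := by
      rw [← map_smul, ← hpq, map_add, P0 p hp, N0 q hq, add_zero]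
    have s3 : a • Fm w = q := by
      rw [← map_smul, ← hpq, map_add, Pm p hp, Nm q hq, zero_add]
    -- the P-part
    have t1 : Fp w ∈ Submodule.span AA PS := by
      have u1 : PS = θ.toLinearMap '' ((fun v : L => (C v : LL L)) ''
          {x : L | ∃ ν : W n, M ≤ ν.length ∧ x = D.w ν}) := by
        ext y
        constructor
        · rintro ⟨ν, hν, rfl⟩
          exact ⟨_, ⟨_, ⟨ν, hν, rfl⟩, rfl⟩, hθ _⟩
        · rintro ⟨_, ⟨_, ⟨ν, hν, rfl⟩, rfl⟩, rfl⟩
          exact ⟨ν, hν, hθ _⟩
      rw [u1, Submodule.span_image]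
      rw [← s1, u1, Submodule.span_image] at hp
      obtain ⟨z, hz, hz'⟩ := hp
      have u2 : z = a • θ.symm (Fp w) := by
        apply θ.injective
        rw [map_smul, LinearEquiv.apply_symm_apply]
        exact hz'
      have u3 := m5_sat h4 _ a ha (θ.symm (Fp w)) (by rw [← u2]; exact hz)
      exact ⟨θ.symm (Fp w), u3, θ.apply_symm_apply _⟩
    have t2 : F0 w = 0 := by
      have := (h4 L ⊥).2 a (F0 w) ha (by
        intro j
        rw [s2]
        exact Submodule.zero_mem _)
      ext j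
      exact (Submodule.mem_bot ℂ).1 (this j)
    have t3 : Fm w ∈ Submodule.span AA NS := by
      have u1 : NS = (fun v : L => (C v : LL L)) ''
          {x : L | ∃ ν : W n, M ≤ ν.length ∧ x = star (D.w ν)} := by
        ext y
        constructor
        · rintro ⟨ν, hν, rfl⟩
          exact ⟨_, ⟨ν, hν, rfl⟩, rfl⟩
        · rintro ⟨_, ⟨ν, hν, rfl⟩, rfl⟩
          exact ⟨ν, hν, rfl⟩
      rw [u1]
      apply m5_sat h4 _ a ha
      rw [s3, ← u1]
      exact hq
    have t4 := m5L_sum D.b w
    rw [← t4]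
    change Fp w + F0 w + Fm w ∈ _
    rw [t2, add_zero]
    exact Submodule.add_mem_sup t1 t3

end Pool.Agent.Helper42.SI
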