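import Pool.Agent.Helper80.SI.StN

set_option autoImplicit false

/-!
# Project SI: module N17 (tails)
-/

namespace Pool.Agent.Helper42.SI

open Pool.Agent.Helper99.SI Pool.Agent.Helper80.SI Filter Topology

theorem hN17 : StN17 := by
  intro a C b N0 ha hs hle g hg
  have h1 : Tendsto (fun N : ℕ => ∑ i ∈ Finset.range N, a i) atTop (𝓝 (∑' i, a i)) :=
    hs.hasSum.tendsto_sum_nat
  have h2 : Tendsto (fun N : ℕ => ∑ i ∈ Finset.range (N + (b + 1)), a i) atTop (𝓝 (∑' i, a i)) :=
    h1.comp (tendsto_add_atTop_nat (b + 1))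
  have h3 : Tendsto (fun N : ℕ => ∑ i ∈ Finset.range (N - b), a i) atTop (𝓝 (∑' i, a i)) :=
    h1.comp (tendsto_sub_atTop_nat b)
  have h4 : Tendsto (fun N : ℕ => C * ∑ i ∈ Finset.Icc (N - b) (N + b), a i) atTop (𝓝 0) := by
    have h5 := (h2.sub h3).const_mul C
    rw [sub_self, mul_zero] at h5
    refine h5.congr fun N => ?_
    have h6 : Finset.Icc (N - b) (N + b) = Finset.Ico (N - b) (N + (b + 1)) := by
      ext x
      simp only [Finset.mem_Icc, Finset.mem_Ico]
      omega
    rw [h6, Finset.sum_Ico_eq_sub _ (by omega)]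
  have hg' : (0 : ℝ) < g := by exact_mod_cast hg
  have h7 : a g / (g : ℝ) ≤ 0 := by
    refine ge_of_tendsto h4 ?_
    filter_upwards [eventually_ge_atTop N0, eventually_ge_atTop g] with N hN hNg
    refine le_trans ?_ (hle N hN)
    exact Finset.single_le_sum (f := fun g : ℕ => a g / (g : ℝ))
      (fun i _ => div_nonneg (ha i) (Nat.cast_nonneg i)) (Finset.mem_Icc.2 ⟨hg, hNg⟩)
  have h8 : a g ≤ 0 := by
    by_contra hc
    exact absurd (div_pos (not_le.1 hc) hg') (not_lt.2 h7)
  exact le_antisymm h8 (ha g)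

end Pool.Agent.Helper42.SI
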