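import Pool.Agent.Helper99.SI.StS

set_option autoImplicit false

/-! Project SI: module S7 (finite rank perturbation supported on V) -/

namespace Pool.Agent.Helper42.SI

open Pool.Agent.Helper99.SI

theorem coer_unique {H : Type} [NormedAddCommGroup H] [InnerProductSpace ℂ H] {ι : Type}
    [Fintype ι] (e : ι → H) (T : H →L[ℂ] H) (hT : Coer e T) (d : H)
    (hd : ∀ i, inner ℂ (e i) d = 0) (a : ι → ℂ) (ha : T d = ∑ i, a i • e i) : d = 0 := by
  obtain ⟨c, hc, h⟩ := hT
  have h1 := h d hd
  have h2 : inner ℂ d (T d) = 0 := by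
    rw [ha, inner_sum]
    refine Finset.sum_eq_zero fun i _ => ?_
    rw [inner_smul_right, inner_eq_zero_symm.mp (hd i), mul_zero]
  rw [h2, Complex.zero_re] at h1
  have h3 : ‖d‖ ^ 2 ≤ 0 := by
    by_contra hcon
    push Not at hcon
    have := mul_pos hc hcon
    linarith
  have h4 : ‖d‖ = 0 := by
    have : 0 ≤ ‖d‖ := norm_nonneg d
    nlinarith
  exact norm_eq_zero.mp h4

theorem coeff_eq {H : Type} [NormedAddCommGroup H] [InnerProductSpace ℂ H] {ι : Type}
    [Fintype ι] [DecidableEq ι] (e : ι → H) (he : Orthonormal ℂ e) (a b : ι → ℂ)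
    (h : ∑ i, a i • e i = ∑ i, b i • e i) : a = b := by
  funext j
  have h1 : inner ℂ (e j) (∑ i, a i • e i) = a j := he.inner_right_fintype a j
  have h2 : inner ℂ (e j) (∑ i, b i • e i) = b j := he.inner_right_fintype b j
  rw [← h1, ← h2, h]

theorem hS7 : StS7 := by
  intro H _ _ _ ι _ _ e he A _ _ T T0 S S0 ka la z m hT hS hS0 hT0 hz hm
  obtain ⟨w, hw, hTw⟩ := hS
  obtain ⟨w0, hw0, hTw0⟩ := hS0
  -- T0 agrees with T on H1
  have hagree : ∀ y : H, (∀ i, inner ℂ (e i) y = 0) → T0 y = T y := by
    intro y hy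
    rw [hT0 y]
    have : ∑ a, (∑ j, la a j * inner ℂ (e j) y) • (∑ i, ka a i • e i) = 0 := by
      refine Finset.sum_eq_zero fun a _ => ?_
      have : ∑ j, la a j * inner ℂ (e j) y = 0 :=
        Finset.sum_eq_zero fun j _ => by rw [hy j, mul_zero]
      rw [this, zero_smul]
    rw [this, add_zero]
  have hC0 : Coer e T0 := by
    obtain ⟨c, hc, h⟩ := hT
    refine ⟨c, hc, fun y hy => ?_⟩
    rw [hagree y hy]
    exact h y hy
  -- T0 (e j + w j)
  have hin : ∀ i j, inner ℂ (e i) (e j + w j) = if i = j then (1 : ℂ) else 0 := by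
    intro i j
    rw [inner_add_right, hw i j, add_zero]
    exact (orthonormal_iff_ite.mp he) i j
  have hTw1 : ∀ j, T0 (e j + w j) = ∑ i, (S i j + ∑ a, ka a i * la a j) • e i := by
    intro j
    rw [hT0, hTw j]
    have h1 : ∀ a, ∑ l, la a l * inner ℂ (e l) (e j + w j) = la a j := by
      intro a
      rw [Finset.sum_eq_single j]
      · rw [hin, if_pos rfl, mul_one]
      · intro l _ hl
        rw [hin, if_neg hl, mul_zero]
      · intro h
        exact absurd (Finset.mem_univ j) h
    have h2 : ∑ a, (∑ l, la a l * inner ℂ (e l) (e j + w j)) • (∑ i, ka a i • e i) =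
        ∑ i, (∑ a, ka a i * la a j) • e i := by
      have : ∀ a, (∑ l, la a l * inner ℂ (e l) (e j + w j)) • (∑ i, ka a i • e i) =
          ∑ i, (ka a i * la a j) • e i := by
        intro a
        rw [h1 a, Finset.smul_sum]
        refine Finset.sum_congr rfl fun i _ => ?_
        rw [smul_smul, mul_comm]
      rw [Finset.sum_congr rfl fun a _ => this a, Finset.sum_comm]
      refine Finset.sum_congr rfl fun i _ => ?_
      rw [Finset.sum_smul]
    rw [h2, ← Finset.sum_add_distrib]
    refine Finset.sum_congr rfl fun i _ => ?_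
    rw [add_smul]
  -- w = w0
  have hww : ∀ j, w j = w0 j := by
    intro j
    have hd : ∀ i, inner ℂ (e i) (w j - w0 j) = 0 := by
      intro i
      rw [inner_sub_right, hw, hw0, sub_zero]
    have hTd : T0 (w j - w0 j) = ∑ i, ((S i j + ∑ a, ka a i * la a j) - S0 i j) • e i := by
      have : w j - w0 j = (e j + w j) - (e j + w0 j) := by abel
      rw [this, map_sub, hTw1, hTw0, ← Finset.sum_sub_distrib]
      refine Finset.sum_congr rfl fun i _ => ?_
      rw [sub_smul]
    exact sub_eq_zero.mp (coer_unique e T0 hC0 _ hd _ hTd)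
  have hS0S : ∀ i j, S0 i j = S i j + ∑ a, ka a i * la a j := by
    intro i j
    have h1 := hTw1 j
    rw [hww j, hTw0 j] at h1
    exact congrFun (coeff_eq e he _ _ h1) i
  -- z b
  have hS0z : ∀ b i, ka b i = ∑ j, S0 i j * inner ℂ (e j) (z b) := by
    intro b i
    have hTs : T0 (∑ j, inner ℂ (e j) (z b) • (e j + w j)) =
        ∑ i, (∑ j, S0 i j * inner ℂ (e j) (z b)) • e i := by
      rw [map_sum]
      have : ∀ j, T0 (inner ℂ (e j) (z b) • (e j + w j)) =
          ∑ i, (S0 i j * inner ℂ (e j) (z b)) • e i := by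
        intro j
        rw [map_smul, hww j, hTw0 j, Finset.smul_sum]
        refine Finset.sum_congr rfl fun i _ => ?_
        rw [smul_smul, mul_comm]
      rw [Finset.sum_congr rfl fun j _ => this j, Finset.sum_comm]
      refine Finset.sum_congr rfl fun i _ => ?_
      rw [Finset.sum_smul]
    have hd : ∀ i, inner ℂ (e i) (z b - ∑ j, inner ℂ (e j) (z b) • (e j + w j)) = 0 := by
      intro i
      rw [inner_sub_right, inner_sum, Finset.sum_eq_single i]
      · rw [inner_smul_right, hin, if_pos rfl, mul_one, sub_self]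
      · intro j _ hj
        rw [inner_smul_right, hin, if_neg (Ne.symm hj), mul_zero]
      · intro h
        exact absurd (Finset.mem_univ i) h
    have hTd : T0 (z b - ∑ j, inner ℂ (e j) (z b) • (e j + w j)) =
        ∑ i, (ka b i - ∑ j, S0 i j * inner ℂ (e j) (z b)) • e i := by
      rw [map_sub, hTs, hz b, ← Finset.sum_sub_distrib]
      refine Finset.sum_congr rfl fun i _ => ?_
      rw [sub_smul]
    have h0 := coer_unique e T0 hC0 _ hd _ hTd
    rw [h0, map_zero] at hTd
    have h1 : (fun i => ka b i - ∑ j, S0 i j * inner ℂ (e j) (z b)) = fun _ => (0 : ℂ) := by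
      refine coeff_eq e he _ _ ?_
      rw [← hTd]
      simp
    have h2 := congrFun h1 i
    exact sub_eq_zero.mp h2
  -- matrices
  let K : Matrix ι A ℂ := Matrix.of fun i a => ka a i
  let Λ : Matrix A ι ℂ := Matrix.of fun a j => la a j
  let Z : Matrix ι A ℂ := Matrix.of fun j b => inner ℂ (e j) (z b)
  have e1 : S = S0 - K * Λ := by
    ext i j
    rw [Matrix.sub_apply, hS0S, Matrix.mul_apply]
    simp [K, Λ]
  have e2 : K = S0 * Z := by
    ext i b
    rw [Matrix.mul_apply]
    exact hS0z b i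
  have e3 : m = Λ * Z := by
    ext a b
    rw [Matrix.mul_apply]
    exact (hm a b).symm
  have e4 : S = S0 * (1 - Z * Λ) := by
    rw [e1, e2, Matrix.mul_sub, Matrix.mul_one, Matrix.mul_assoc]
  rw [e4, Matrix.det_mul, Matrix.det_one_sub_mul_comm, e3]

end Pool.Agent.Helper42.SI
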